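import Mathlib

/-!
# Even feedback vertex sets bound the number of regular models

If `U` meets every even cycle of the atom dependency graph of a finite ground normal program `P`,
then `P` has at most `2 ^ |U|` regular models. The program need not be tight.

The proof: two distinct regular models take opposite classical values at some atom, for otherwise
their common refinement could be enlarged to a stable partial model that carries more information
than both. If two stable partial models take opposite values at some atom then every such atom has a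
predecessor of this kind in the dependency graph, in such a way that the sides change exactly at the
negative arcs; going backwards produces an even cycle of atoms with opposite values.
-/

set_option autoImplicit false

namespace Pool.Agent.Results.MP_9cfc50_lc.RegularModels

variable {A : Type*}

/-- A ground rule `head ← b₁, …, bₘ, ¬ c₁, …, ¬ cₙ` with `pos = {b₁, …, bₘ}` and
`neg = {c₁, …, cₙ}`. -/
structure Rule (A : Type*) where
  head : A
  pos : Finset A
  neg : Finset A

/-- `J` is a model of the reduct `P^I`. The truth values are `0`, `1`, `2 : Fin 3`, they stand for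
`0`, `1/2`, `1`, and `Fin.rev` is the map `x ↦ 1 - x`. In the reduct each literal `¬ c` is replaced by
the constant `1 - I c`; the interpretation `J` is a model if the value of the head of each rule is at
least the minimum of the values in the body. -/
def IsModelOfReduct (P : Finset (Rule A)) (I J : A → Fin 3) : Prop :=
  ∀ r ∈ P, r.pos.inf J ⊓ r.neg.inf (fun c => (I c).rev) ≤ J r.head

/-- `I` is a stable partial model: it is the least model (in the truth order) of the reduct `P^I`. -/
def IsStablePartialModel (P : Finset (Rule A)) (I : A → Fin 3) : Prop :=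
  IsLeast {J | IsModelOfReduct P I J} I

/-- The information order. -/
def LeInfo (I J : A → Fin 3) : Prop := ∀ a, I a ≠ 1 → J a = I a

/-- Regular models: the stable partial models that are maximal in the information order. -/
def IsRegularModel (P : Finset (Rule A)) (I : A → Fin 3) : Prop :=
  IsStablePartialModel P I ∧ ∀ J, IsStablePartialModel P J → LeInfo I J → J = I

/-- The arcs of the atom dependency graph, the Boolean says whether the arc is negative. -/
def Arc (P : Finset (Rule A)) : Bool → A → A → Prop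
  | false, u, v => ∃ r ∈ P, r.head = v ∧ u ∈ r.pos
  | true, u, v => ∃ r ∈ P, r.head = v ∧ u ∈ r.neg

/-- An even cycle of length `n ≥ 1`: distinct vertices `v i` and arcs from `v i` to `v (i + 1)`, with
indices modulo `n`, and an even number of the arcs are negative. -/
def IsEvenCycle (P : Finset (Rule A)) {n : ℕ} [NeZero n] (v : ZMod n → A)
    (s : ZMod n → Bool) : Prop :=
  Function.Injective v ∧ (∀ i, Arc P (s i) (v i) (v (i + 1))) ∧
    Even (Finset.univ.filter fun i => s i = true).card

/-- Every even cycle of the atom dependency graph has a vertex in `U`. -/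
def MeetsEvenCycles (P : Finset (Rule A)) (U : Finset A) : Prop :=
  ∀ (n : ℕ) [NeZero n] (v : ZMod n → A) (s : ZMod n → Bool), IsEvenCycle P v s → ∃ i, v i ∈ U

/-- `S` is closed under the rules whose negative body avoids `X`. -/
def Cl (P : Finset (Rule A)) (X S : Set A) : Prop :=
  ∀ r ∈ P, (∀ b ∈ r.pos, b ∈ S) → (∀ c ∈ r.neg, c ∉ X) → r.head ∈ S

/-- the least closed set -/
def T (P : Finset (Rule A)) (X : Set A) : Set A := ⋂₀ {S | Cl P X S}

theorem T_cl (P : Finset (Rule A)) (X : Set A) : Cl P X (T P X) := by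
  intro r hr hb hc S hS
  exact hS r hr (fun b hbr => hb b hbr S hS) hc

theorem T_le {P : Finset (Rule A)} {X S : Set A} (h : Cl P X S) : T P X ⊆ S :=
  fun _ ha => ha S h

theorem T_anti {P : Finset (Rule A)} {X Y : Set A} (h : X ⊆ Y) : T P Y ⊆ T P X :=
  T_le fun r hr hb hc => T_cl P X r hr hb fun c hcr hcX => hc c hcr (h hcX)

/-- the true atoms -/
def lo (I : A → Fin 3) : Set A := {a | I a = 2}

/-- the atoms which are not false -/
def up (I : A → Fin 3) : Set A := {a | I a ≠ 0}

theorem body_two (r : Rule A) (I J : A → Fin 3) :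
    r.pos.inf J ⊓ r.neg.inf (fun c => (I c).rev) = 2 ↔
      (∀ b ∈ r.pos, J b = 2) ∧ ∀ c ∈ r.neg, I c = 0 := by
  have h2 : (2 : Fin 3) = ⊤ := rfl
  rw [h2, inf_eq_top_iff, Finset.inf_eq_top_iff, Finset.inf_eq_top_iff]
  refine and_congr Iff.rfl ?_
  refine forall₂_congr fun c _ => ?_
  generalize I c = x
  revert x
  decide

theorem body_one (r : Rule A) (I J : A → Fin 3) :
    1 ≤ r.pos.inf J ⊓ r.neg.inf (fun c => (I c).rev) ↔
      (∀ b ∈ r.pos, J b ≠ 0) ∧ ∀ c ∈ r.neg, I c ≠ 2 := by
  rw [le_inf_iff, Finset.le_inf_iff, Finset.le_inf_iff]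
  refine and_congr ?_ ?_
  · refine forall₂_congr fun c _ => ?_
    generalize J c = x
    revert x
    decide
  · refine forall₂_congr fun c _ => ?_
    generalize I c = x
    revert x
    decide

theorem model_iff (P : Finset (Rule A)) (I J : A → Fin 3) :
    IsModelOfReduct P I J ↔ Cl P (up I) (lo J) ∧ Cl P (lo I) (up J) := by
  have key : ∀ x y : Fin 3, x ≤ y ↔ (x = 2 → y = 2) ∧ (1 ≤ x → y ≠ 0) := by decide
  unfold IsModelOfReduct Cl
  constructor
  · intro h
    constructor
    · intro r hr hb hc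
      refine ((key _ _).mp (h r hr)).1 ((body_two r I J).mpr ⟨hb, fun c hcr => ?_⟩)
      have := hc c hcr
      unfold up at this
      simpa using this
    · intro r hr hb hc
      exact ((key _ _).mp (h r hr)).2 ((body_one r I J).mpr ⟨hb, hc⟩)
  · rintro ⟨h1, h2⟩ r hr
    rw [key]
    constructor
    · intro h
      rw [body_two] at h
      exact h1 r hr h.1 fun c hc => by unfold up; simpa using h.2 c hc
    · intro h
      rw [body_one] at h
      exact h2 r hr h.1 h.2

open Classical in
/-- the interpretation with given true atoms and given atoms that are not false -/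
noncomputable def mk (L U : Set A) (a : A) : Fin 3 := if a ∈ L then 2 else if a ∈ U then 1 else 0

theorem lo_mk (L U : Set A) : lo (mk L U) = L := by
  ext a
  unfold lo mk
  by_cases h : a ∈ L
  · simp [h]
  · by_cases h' : a ∈ U <;> simp [h, h']

theorem up_mk (L U : Set A) (h : L ⊆ U) : up (mk L U) = U := by
  ext a
  unfold up mk
  by_cases h' : a ∈ L
  · simp [h', h h']
  · by_cases h'' : a ∈ U <;> simp [h', h'']

theorem le_iff (I J : A → Fin 3) : I ≤ J ↔ lo I ⊆ lo J ∧ up I ⊆ up J := by
  have key : ∀ x y : Fin 3, x ≤ y ↔ (x = 2 → y = 2) ∧ (x ≠ 0 → y ≠ 0) := by decide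
  constructor
  · intro h
    exact ⟨fun a ha => ((key _ _).mp (h a)).1 ha, fun a ha => ((key _ _).mp (h a)).2 ha⟩
  · rintro ⟨h1, h2⟩ a
    exact (key _ _).mpr ⟨fun ha => h1 ha, fun ha => h2 ha⟩

theorem lo_sub_up (I : A → Fin 3) : lo I ⊆ up I := by
  intro a ha
  unfold lo at ha
  unfold up
  have : I a = 2 := ha
  show I a ≠ 0
  rw [this]
  decide

theorem ext_iff' {I J : A → Fin 3} (h1 : lo I = lo J) (h2 : up I = up J) : I = J :=
  le_antisymm ((le_iff I J).mpr ⟨h1.subset, h2.subset⟩) ((le_iff J I).mpr ⟨h1.superset, h2.superset⟩)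

/-- stable partial models in terms of the least closed sets -/
theorem stable_iff (P : Finset (Rule A)) (I : A → Fin 3) :
    IsStablePartialModel P I ↔ lo I = T P (up I) ∧ up I = T P (lo I) := by
  constructor
  · rintro ⟨h1, h2⟩
    have h1' := (model_iff P I I).mp h1
    have hsub : T P (up I) ⊆ T P (lo I) := T_anti (lo_sub_up I)
    have h3 : IsModelOfReduct P I (mk (T P (up I)) (T P (lo I))) := by
      rw [model_iff, lo_mk, up_mk _ _ hsub]
      exact ⟨T_cl _ _, T_cl _ _⟩
    have h4 := (le_iff _ _).mp (h2 h3)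
    rw [lo_mk, up_mk _ _ hsub] at h4
    exact ⟨h4.1.antisymm (T_le h1'.1), h4.2.antisymm (T_le h1'.2)⟩
  · rintro ⟨h1, h2⟩
    constructor
    · show IsModelOfReduct P I I
      rw [model_iff]
      constructor
      · have := T_cl P (up I); rwa [← h1] at this
      · have := T_cl P (lo I); rwa [← h2] at this
    · intro J hJ
      have hJ' := (model_iff P I J).mp hJ
      rw [le_iff]
      have h3 : T P (up I) ⊆ lo J := T_le hJ'.1
      have h4 : T P (lo I) ⊆ up J := T_le hJ'.2
      exact ⟨h1.subset.trans h3, h2.subset.trans h4⟩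

theorem leInfo_iff (I J : A → Fin 3) : LeInfo I J ↔ lo I ⊆ lo J ∧ up J ⊆ up I := by
  have key : ∀ x y : Fin 3, (x ≠ 1 → y = x) ↔ (x = 2 → y = 2) ∧ (y ≠ 0 → x ≠ 0) := by decide
  constructor
  · intro h
    exact ⟨fun a ha => ((key _ _).mp (h a)).1 ha, fun a ha => ((key _ _).mp (h a)).2 ha⟩
  · rintro ⟨h1, h2⟩ a
    exact (key _ _).mpr ⟨fun ha => h1 ha, fun ha => h2 ha⟩

/-- Two regular models without opposite values are equal. -/
theorem regular_eq [Finite A] (P : Finset (Rule A)) {I J : A → Fin 3} (hI : IsRegularModel P I)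
    (hJ : IsRegularModel P J) (h1 : lo I ⊆ up J) (h2 : lo J ⊆ up I) : I = J := by
  let C : Set (Set A × (Set A)ᵒᵈ) := {X | X.1 ⊆ OrderDual.ofDual X.2 ∧
    (lo I ∪ lo J) ⊆ X.1 ∧ OrderDual.ofDual X.2 ⊆ up I ∩ up J ∧
    X.1 ⊆ T P (OrderDual.ofDual X.2) ∧ T P X.1 ⊆ OrderDual.ofDual X.2}
  have hIs := (stable_iff P I).mp hI.1
  have hJs := (stable_iff P J).mp hJ.1
  have hC : C.Nonempty := by
    refine ⟨(lo I ∪ lo J, OrderDual.toDual (up I ∩ up J)), ?_, subset_rfl, subset_rfl, ?_, ?_⟩
    · exact Set.union_subset (Set.subset_inter (lo_sub_up I) h1)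
        (Set.subset_inter h2 (lo_sub_up J))
    · refine Set.union_subset ?_ ?_
      · rw [hIs.1]; exact T_anti Set.inter_subset_left
      · rw [hJs.1]; exact T_anti Set.inter_subset_right
    · refine Set.subset_inter ?_ ?_
      · show T P (lo I ∪ lo J) ⊆ up I
        rw [hIs.2]; exact T_anti Set.subset_union_left
      · show T P (lo I ∪ lo J) ⊆ up J
        rw [hJs.2]; exact T_anti Set.subset_union_right
  have hfin : C.Finite := Set.toFinite C
  obtain ⟨X, hX⟩ := hfin.exists_maximal hC
  obtain ⟨⟨x1, x2, x3, x4, x5⟩, hmax⟩ := hX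
  have hmem : (T P (OrderDual.ofDual X.2), OrderDual.toDual (T P X.1)) ∈ C :=
    ⟨T_anti x1, x2.trans x4, x5.trans x3, T_anti x5, T_anti x4⟩
  have hle := hmax hmem ⟨x4, x5⟩
  have e1 : T P (OrderDual.ofDual X.2) = X.1 := Set.Subset.antisymm hle.1 x4
  have e2 : T P X.1 = OrderDual.ofDual X.2 := Set.Subset.antisymm x5 hle.2
  let K := mk X.1 (OrderDual.ofDual X.2)
  have hK : IsStablePartialModel P K := by
    rw [stable_iff, lo_mk, up_mk _ _ x1]
    exact ⟨e1.symm, e2.symm⟩
  have hIK : LeInfo I K := by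
    rw [leInfo_iff, lo_mk, up_mk _ _ x1]
    exact ⟨Set.subset_union_left.trans x2, x3.trans Set.inter_subset_left⟩
  have hJK : LeInfo J K := by
    rw [leInfo_iff, lo_mk, up_mk _ _ x1]
    exact ⟨Set.subset_union_right.trans x2, x3.trans Set.inter_subset_right⟩
  rw [← hI.2 K hK hIK, ← hJ.2 K hK hJK]

/-- An atom with opposite values has such a predecessor. -/
theorem pred (P : Finset (Rule A)) {I J : A → Fin 3} (hI : IsStablePartialModel P I)
    (hJ : IsStablePartialModel P J) (v : A) (hv : v ∈ lo I) (hv' : v ∉ up J) :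
    (∃ u, Arc P false u v ∧ u ∈ lo I ∧ u ∉ up J) ∨
      (∃ u, Arc P true u v ∧ u ∈ lo J ∧ u ∉ up I) := by
  by_contra hcon
  push Not at hcon
  obtain ⟨h1, h2⟩ := hcon
  have hIs := (stable_iff P I).mp hI
  have hJs := (stable_iff P J).mp hJ
  have hcl : Cl P (up I) (lo I \ {v}) := by
    intro r hr hb hc
    have hcl0 : Cl P (up I) (lo I) := by have := T_cl P (up I); rwa [← hIs.1] at this
    have hcl1 : Cl P (lo J) (up J) := by have := T_cl P (lo J); rwa [← hJs.2] at this
    refine ⟨hcl0 r hr (fun b hbr => (hb b hbr).1) hc, ?_⟩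
    intro hrv
    rw [Set.mem_singleton_iff] at hrv
    apply hv'
    rw [← hrv]
    refine hcl1 r hr (fun b hbr => ?_) (fun c hcr hcJ => ?_)
    · exact h1 b ⟨r, hr, hrv, hbr⟩ (hb b hbr).1
    · exact hc c hcr (h2 c ⟨r, hr, hrv, hcr⟩ hcJ)
  have h3 := T_le hcl
  rw [← hIs.1] at h3
  exact (h3 hv).2 rfl

/-- Stable partial models with opposite values at some atom have opposite values at an atom of `U`. -/
theorem conflict [Finite A] (P : Finset (Rule A)) (U : Finset A) (hU : MeetsEvenCycles P U)
    {I J : A → Fin 3} (hI : IsStablePartialModel P I) (hJ : IsStablePartialModel P J) (v : A)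
    (hv : v ∈ lo I) (hv' : v ∉ up J) :
    ∃ u ∈ U, (u ∈ lo I ∧ u ∉ up J) ∨ (u ∈ lo J ∧ u ∉ up I) := by
  classical
  let X : Type _ := {a : A // (a ∈ lo I ∧ a ∉ up J) ∨ (a ∈ lo J ∧ a ∉ up I)}
  let cls : X → ZMod 2 := fun a => if a.1 ∈ lo I ∧ a.1 ∉ up J then 0 else 1
  have hex : ∀ a : X, ∃ b : X, ∃ s : Bool, Arc P s b.1 a.1 ∧
      (if s = true then 1 else 0 : ZMod 2) = cls a + cls b := by
    rintro ⟨a, ha⟩
    rcases ha with ha | ha
    · rcases pred P hI hJ a ha.1 ha.2 with ⟨u, hu, hu'⟩ | ⟨u, hu, hu'⟩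
      · refine ⟨⟨u, Or.inl hu'⟩, false, hu, ?_⟩
        simp only [cls, if_pos ha, if_pos hu']
        simp
      · refine ⟨⟨u, Or.inr hu'⟩, true, hu, ?_⟩
        have hn : ¬ (u ∈ lo I ∧ u ∉ up J) := fun h => h.2 (lo_sub_up J hu'.1)
        simp only [cls, if_pos ha, if_neg hn]
        simp
    · have hna : ¬ (a ∈ lo I ∧ a ∉ up J) := fun h => h.2 (lo_sub_up J ha.1)
      rcases pred P hJ hI a ha.1 ha.2 with ⟨u, hu, hu'⟩ | ⟨u, hu, hu'⟩
      · refine ⟨⟨u, Or.inr hu'⟩, false, hu, ?_⟩
        have hn : ¬ (u ∈ lo I ∧ u ∉ up J) := fun h => h.2 (lo_sub_up J hu'.1)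
        simp only [cls, if_neg hna, if_neg hn]
        decide
      · refine ⟨⟨u, Or.inl hu'⟩, true, hu, ?_⟩
        simp only [cls, if_neg hna, if_pos hu']
        simp
  choose f s hf hs using hex
  have : Finite X := Subtype.finite
  obtain ⟨i, j, hij, hfij⟩ : ∃ i j : ℕ, i < j ∧ f^[i] ⟨v, Or.inl ⟨hv, hv'⟩⟩ =
      f^[j] ⟨v, Or.inl ⟨hv, hv'⟩⟩ := by
    obtain ⟨i, j, hne, h⟩ := Finite.exists_ne_map_eq_of_infinite
      (fun k : ℕ => f^[k] (⟨v, Or.inl ⟨hv, hv'⟩⟩ : X))
    rcases lt_or_gt_of_ne hne with h' | h'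
    · exact ⟨i, j, h', h⟩
    · exact ⟨j, i, h', h.symm⟩
  set y := f^[i] (⟨v, Or.inl ⟨hv, hv'⟩⟩ : X) with hy
  have hper : Function.IsPeriodicPt f (j - i) y := by
    show f^[j - i] y = y
    rw [hy, ← Function.iterate_add_apply, Nat.sub_add_cancel hij.le]
    exact hfij.symm
  have hpos : 0 < Function.minimalPeriod f y := hper.minimalPeriod_pos (by omega)
  set n := Function.minimalPeriod f y with hn
  have : NeZero n := ⟨hpos.ne'⟩
  have hyn : f^[n] y = y := Function.iterate_minimalPeriod
  let w : ZMod n → X := fun i => f^[i.val] y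
  have hw : ∀ i, w (i + 1) = f (w i) := by
    intro i
    show f^[(i + 1).val] y = f (f^[i.val] y)
    rw [← Function.iterate_succ_apply' f i.val y]
    rcases Nat.lt_or_ge (i.val + 1) n with h | h
    · rw [ZMod.val_add, ZMod.val_one_eq_one_mod, Nat.add_mod_mod, Nat.mod_eq_of_lt h]
    · have h5 : i.val < n := ZMod.val_lt i
      have h6 : i.val + 1 = n := by omega
      rw [Nat.succ_eq_add_one, h6, hyn]
      have h7 : i + 1 = 0 := by
        have : ((i.val + 1 : ℕ) : ZMod n) = 0 := by rw [h6]; exact ZMod.natCast_self n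
        rwa [Nat.cast_add, ZMod.natCast_zmod_val, Nat.cast_one] at this
      rw [h7, ZMod.val_zero]
      rfl
  have hwinj : Function.Injective w := by
    intro a b hab
    have h5 := Function.iterate_injOn_Iio_minimalPeriod (f := f) (x := y)
      (Set.mem_Iio.mpr (ZMod.val_lt a)) (Set.mem_Iio.mpr (ZMod.val_lt b)) hab
    exact ZMod.val_injective n h5
  have hcyc : IsEvenCycle P (fun i : ZMod n => (w (-i)).1) (fun i => s (w (-(i + 1)))) := by
    refine ⟨?_, ?_, ?_⟩
    · intro a b hab
      exact neg_injective (hwinj (Subtype.ext hab))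
    · intro a
      have h5 := hf (w (-(a + 1)))
      rw [← hw] at h5
      have h6 : -(a + 1) + 1 = -a := by ring
      rwa [h6] at h5
    · have h5 : ((Finset.univ.filter fun i : ZMod n => s (w (-(i + 1))) = true).card : ZMod 2) =
          0 := by
        rw [← Finset.sum_boole]
        have h6 : ∀ i : ZMod n, (if s (w (-(i + 1))) = true then (1 : ZMod 2) else 0) =
            cls (w (-(i + 1))) + cls (w (-i)) := by
          intro i
          rw [hs, ← hw]
          congr 3
          ring
        simp_rw [h6]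
        rw [Finset.sum_add_distrib]
        have h7 : ∑ i : ZMod n, cls (w (-(i + 1))) = ∑ i : ZMod n, cls (w (-i)) :=
          Equiv.sum_comp (Equiv.addRight (1 : ZMod n)) (fun i => cls (w (-i)))
        rw [h7]
        exact CharTwo.add_self_eq_zero _
      rw [ZMod.natCast_eq_zero_iff] at h5
      exact even_iff_two_dvd.mpr h5
  obtain ⟨i, hi⟩ := hU n _ _ hcyc
  exact ⟨_, hi, (w (-i)).2⟩

/-- If `U` meets every even cycle of the atom dependency graph of the finite ground normal program
`P`, then `P` has at most `2 ^ |U|` regular models. -/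
theorem result [Finite A] (P : Finset (Rule A)) (U : Finset A) (hU : MeetsEvenCycles P U) :
    {I | IsRegularModel P I}.ncard ≤ 2 ^ U.card := by
  classical
  have h1 : Set.InjOn (fun I : A → Fin 3 => U.filter fun a => I a = 2)
      {I | IsRegularModel P I} := by
    intro I hI J hJ hIJ
    by_contra hne
    have hmem : ∀ u ∈ U, (u ∈ lo I ↔ u ∈ lo J) := by
      intro u hu
      have := Finset.ext_iff.mp hIJ u
      simp only [Finset.mem_filter, hu, true_and] at this
      exact this
    have h2 : ¬ (lo I ⊆ up J ∧ lo J ⊆ up I) := fun h => hne (regular_eq P hI hJ h.1 h.2)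
    have h3 : ∃ u ∈ U, (u ∈ lo I ∧ u ∉ up J) ∨ (u ∈ lo J ∧ u ∉ up I) := by
      rw [not_and_or, Set.not_subset, Set.not_subset] at h2
      rcases h2 with ⟨v, hv, hv'⟩ | ⟨v, hv, hv'⟩
      · exact conflict P U hU hI.1 hJ.1 v hv hv'
      · obtain ⟨u, hu, h⟩ := conflict P U hU hJ.1 hI.1 v hv hv'
        exact ⟨u, hu, h.symm⟩
    obtain ⟨u, hu, h | h⟩ := h3
    · exact h.2 (lo_sub_up J ((hmem u hu).mp h.1))
    · exact h.2 (lo_sub_up I ((hmem u hu).mpr h.1))
  have h2 : (fun I : A → Fin 3 => U.filter fun a => I a = 2) '' {I | IsRegularModel P I} ⊆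
      (U.powerset : Set (Finset A)) := by
    rintro _ ⟨I, _, rfl⟩
    exact Finset.mem_coe.mpr (Finset.mem_powerset.mpr (Finset.filter_subset _ _))
  have h3 := Set.ncard_le_ncard h2 (Finset.finite_toSet _)
  rw [h1.ncard_image, Set.ncard_coe_finset, Finset.card_powerset] at h3
  exact h3

end Pool.Agent.Results.MP_9cfc50_lc.RegularModels
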